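import Pool.Agent.Lib.MP_1ef7cf_nt_g.Mg.G072

/-!
# Tate's form of Stark's conjecture for the cyclotomic tower over `K(√e)`, `e` a unit of norm `-1`

Let `K ⊂ ℝ` be a real quadratic field with a unit `e > 0` of norm `-1`. Let `L_k` be the field
`K(√e, cos (2 π / 2 ^ k))`. We prove the conditions 1-3 and the square root condition for all `L_k / K`
(with the set of primes above `2`).
-/

open NumberField IsDedekindDomain IntermediateField

namespace Pool.Agent.Results.MP_1ef7cf_nt.CMLayers

open Pool.Agent.StarkRQ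

/-- Let `K ⊂ ℝ` be a real quadratic field with second embedding `σ₂`, and `e > 0` a unit of `K` of
norm `-1`. Let `m ≠ 0` be an ideal whose prime divisors are the primes above `2`, and let `H` be the
ray class field of modulus `m ∞₂`. For all `k` such that `L_k = K(√e, cos (2 π / 2 ^ k))` is contained
in `H`, units of `L_k` with the conditions 1-3 for the modulus `m` exist, and the extensions of `K`
generated by `L_k` and the square roots of these units are abelian. -/
theorem result {K : Type*} [Field K] [NumberField K] [Algebra K ℝ]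
    (hK : Module.finrank ℚ K = 2) (σ₂ : K →+* ℝ) (hσ : σ₂ ≠ algebraMap K ℝ)
    (e : (𝓞 K)ˣ) (he : 0 < algebraMap K ℝ ((e : 𝓞 K) : K))
    (hN : Algebra.norm ℤ (e : 𝓞 K) = -1)
    (m : Ideal (𝓞 K)) (hm0 : m ≠ ⊥)
    (hm : ∀ v : HeightOneSpectrum (𝓞 K), v.asIdeal ∣ m ↔ (2 : 𝓞 K) ∈ v.asIdeal)
    (H : IntermediateField K ℝ) (Art : RayClassGroup σ₂ m ≃* (H ≃ₐ[K] H))
    (hH : IsRayClassField σ₂ m H Art) (k : ℕ)
    (hk : layer K⟮√(algebraMap K ℝ ((e : 𝓞 K) : K))⟯ k ≤ H) :
    StarkTateIn σ₂ m (layer K⟮√(algebraMap K ℝ ((e : 𝓞 K) : K))⟯ k) :=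
  Pool.Agent.STg.fin_layer hK hσ he hN hm0 hm ((isRayClassField_iff σ₂ m H Art).1 hH) k hk

end Pool.Agent.Results.MP_1ef7cf_nt.CMLayers
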