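import Pool.Agent.Lib.MP_1ef7cf_nt.LocalCrit

/-!
# The Stark-Tate conjecture over a real quadratic field: a local criterion

`StarkTate σ₂ m` (in `Pool.Agent.Lib.MP_1ef7cf_nt.SDefs`) is the assertion of Q1 for the real
quadratic field `K` and the modulus `m`; `StarkTateRatios σ₂ m` (in `SDefs2`) is a weaker assertion
on the ratios only. We show that the assertion for `n` follows from the weaker assertion for
finitely many moduli `n * 2 ^ j * q ^ k`.
-/

open NumberField IsDedekindDomain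

namespace Pool.Agent.Results.MP_1ef7cf_nt.LocalCriterion

open Pool.Agent.StarkRQ

/-- Let `K ⊂ ℝ` be a real quadratic field with second embedding `σ₂`, and let `n ≠ (0), (1)` be an
ideal divisible by all primes above `2`. There is a `j₀` such that for all ideals `a ≠ (0)` prime to
`n` the following holds: let `G` be a set of at least two primes not dividing `n * a` whose classes
generate the ray class group of modulus `n * a * 2 ^ j₀ * ∞₂`; if for each `q` in `G` there are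
`j ≥ j₀` and `k ≥ 1` such that `StarkTateRatios` holds for `n * a * 2 ^ j * q ^ k`, then the
Stark-Tate assertion holds for `n * a`. -/
theorem result {K : Type*} [Field K] [NumberField K] [Algebra K ℝ]
    (hK : Module.finrank ℚ K = 2) (σ₂ : K →+* ℝ) (hσ : σ₂ ≠ algebraMap K ℝ)
    (n : Ideal (𝓞 K)) (hn : n ≠ ⊥) (hn1 : n ≠ ⊤)
    (h2 : ∀ v : HeightOneSpectrum (𝓞 K), (2 : 𝓞 K) ∈ v.asIdeal → v.asIdeal ∣ n) :
    ∃ j₀ : ℕ, ∀ a : Ideal (𝓞 K), a ≠ ⊥ → IsCoprime n a →
      ∀ G : Set (HeightOneSpectrum (𝓞 K)), G.Nontrivial →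
        (∀ q ∈ G, ¬ q.asIdeal ∣ n * a ∧ ∃ j ≥ j₀, ∃ k ≥ 1,
          StarkTateRatios σ₂ (n * a * Ideal.span {(2 : 𝓞 K)} ^ j * q.asIdeal ^ k)) →
        Subgroup.closure {A : RayClassGroup σ₂ (n * a * Ideal.span {(2 : 𝓞 K)} ^ j₀) |
          ∃ q ∈ G, ∃ J : PrimeTo (n * a * Ideal.span {(2 : 𝓞 K)} ^ j₀),
            J.val = q.asIdeal ∧ cls σ₂ _ J = A} = ⊤ →
        StarkTate σ₂ (n * a) := by
  obtain ⟨j₀, hj₀⟩ := Pool.Agent.ST.local_criterion hK hσ hn hn1 h2
  refine ⟨j₀, fun a ha hcop G hG2 hG hgen => ?_⟩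
  rw [starkTate_iff]
  refine hj₀ a ha hcop G hG2 ?_ ?_
  · intro q hq
    obtain ⟨h1, j, hj, k, hk, hP⟩ := hG q hq
    exact ⟨h1, j, hj, k, hk, ((starkTateRatios_iff σ₂ _).1 hP).sqrtP⟩
  · set N := n * a * Ideal.span {(2 : 𝓞 K)} ^ j₀ with hN
    rw [eq_top_iff]
    intro A _
    have hA : A ∈ Subgroup.closure {A : RayClassGroup σ₂ N |
          ∃ q ∈ G, ∃ J : PrimeTo N, J.val = q.asIdeal ∧ cls σ₂ _ J = A} := by
      rw [hgen]; exact Subgroup.mem_top A
    refine Subgroup.closure_induction (p := fun x _ => x ∈ (Subgroup.closure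
      {A : Pool.Agent.ST.RayClassGroup σ₂ N | ∃ (q : HeightOneSpectrum (𝓞 K))
      (h : ¬ q.asIdeal ∣ N), Pool.Agent.ST.cls σ₂ N (Pool.Agent.ST.prJ N q h) = A ∧ q ∈ G} :
        Subgroup (Pool.Agent.ST.RayClassGroup σ₂ N))) ?_ ?_ ?_ ?_ hA
    · rintro x ⟨q, hq, J, hJ, rfl⟩
      apply Subgroup.subset_closure
      have hv : ¬ q.asIdeal ∣ N := not_dvd_of_val hJ
      refine ⟨q, hv, ?_, hq⟩
      have h4 : J = Pool.Agent.ST.prJ N q hv := by
        apply Subtype.ext
        apply Units.ext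
        exact hJ
      rw [h4]
      rfl
    · exact Subgroup.one_mem _
    · intro x y _ _ hx hy
      exact Subgroup.mul_mem _ hx hy
    · intro x _ hx
      exact Subgroup.inv_mem _ hx

end Pool.Agent.Results.MP_1ef7cf_nt.LocalCriterion
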