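import Pool.Agent.Lib.MP_1ef7cf_nt_f.Mg.G001

/-!
# The square root condition for 2-extensions follows from one instance of Stark's conditions

Let `K ⊂ ℝ` be a real quadratic field and `K ⊂ L ⊂ ℝ` an abelian extension of `K` of degree a power
of two. Let `L_k` be the compositum of `L` and of the maximal real subfield of the field of the
`2 ^ k`-th roots of unity. We show that there is a number `k₀`, depending only on `K` and `L`, such
that a single instance, at one level `k ≥ k₀`, of the conditions 1-3 of Stark's conjecture for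
`L_k / K` implies the conditions 1-3 and the square root condition of Q1 for `L_j / K`, for all
`j < k`, with the same set of primes. In particular, if the ray class group of modulus `m ∞₂` has
order a power of two, then Q1 for `(K, m)` follows from `Stark(K, m 2 ^ k)` for one `k ≥ k₀`.
-/

open NumberField IsDedekindDomain IntermediateField

namespace Pool.Agent.Results.MP_1ef7cf_nt.TwoExtensions

open Pool.Agent.StarkRQ

/-- Let `K ⊂ ℝ` be a real quadratic field with second embedding `σ₂`, and `K ⊂ L ⊂ ℝ` a finite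
abelian extension with `[L : K]` a power of two. Let `L_k = layer L k` be the field
`L(cos (2 π / 2 ^ k))`. There is `k₀` with the following property. Let `k ≥ k₀`, let `m ≠ (1)` be an
ideal and `M ≠ 0` a multiple of `m` with the same prime divisors. Assume that units of `L_k` with the
conditions 1-3 for the modulus `M` exist (`StarkIn`). Then for each `j < k` such that `L_j` is
contained in the ray class field of modulus `m ∞₂`, units of `L_j` with the conditions 1-3 for the
modulus `m` exist, and the extensions of `K` generated by `L_j` and the square roots of these units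
are abelian (`StarkTateIn`). -/
theorem result {K : Type*} [Field K] [NumberField K] [Algebra K ℝ]
    (hK : Module.finrank ℚ K = 2) (σ₂ : K →+* ℝ) (hσ : σ₂ ≠ algebraMap K ℝ)
    (L : IntermediateField K ℝ) [FiniteDimensional K L] [IsAbelianGalois K L]
    (hr : ∃ r : ℕ, Module.finrank K L = 2 ^ r) :
    ∃ k₀ : ℕ, ∀ k ≥ k₀, ∀ m M : Ideal (𝓞 K), M ≠ ⊥ → m ≠ ⊤ → m ∣ M →
      (∀ v : HeightOneSpectrum (𝓞 K), v.asIdeal ∣ M → v.asIdeal ∣ m) →
      StarkIn σ₂ M (layer L k) →
      ∀ j < k, ∀ (H : IntermediateField K ℝ) (Art : RayClassGroup σ₂ m ≃* (H ≃ₐ[K] H)),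
      IsRayClassField σ₂ m H Art → layer L j ≤ H → StarkTateIn σ₂ m (layer L j) := by
  obtain ⟨k₀, hk₀⟩ := Pool.Agent.STf.tower_local hK hσ L hr
  exact ⟨k₀, fun k hk m M hM hm hmM hdvd hS j hj H Art hH hjH =>
    hk₀ k hk m M hM hm hmM hdvd hS j hj H Art ((isRayClassField_iff σ₂ m H Art).1 hH) hjH⟩

/-- The case where `L` is the ray class field of modulus `m ∞₂`, `M = m 2 ^ k` and `j = 0`: if the
ray class group has order a power of two and all primes above `2` divide `m`, then `Stark(K, m 2 ^ k)`
for one `k ≥ k₀` implies Q1 for `(K, m)`. -/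
theorem starkTate {K : Type*} [Field K] [NumberField K] [Algebra K ℝ]
    (hK : Module.finrank ℚ K = 2) (σ₂ : K →+* ℝ) (hσ : σ₂ ≠ algebraMap K ℝ)
    (m : Ideal (𝓞 K)) (hm : m ≠ ⊥)
    (hm2 : ∀ v : HeightOneSpectrum (𝓞 K), (2 : 𝓞 K) ∈ v.asIdeal → v.asIdeal ∣ m)
    (H : IntermediateField K ℝ) (Art : RayClassGroup σ₂ m ≃* (H ≃ₐ[K] H))
    (hH : IsRayClassField σ₂ m H Art) (hr : ∃ r : ℕ, Module.finrank K H = 2 ^ r) :
    ∃ k₀ : ℕ, ∀ k ≥ k₀, Stark σ₂ (m * Ideal.span {2} ^ k) → StarkTate σ₂ m :=
  Pool.Agent.STf.starkTate_of_single hK hσ hm hm2 ((isRayClassField_iff σ₂ m H Art).1 hH) hr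

end Pool.Agent.Results.MP_1ef7cf_nt.TwoExtensions
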